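import Pool.Agent.Q89.JB.Mult

/-!
# The Jordan product of multipliers of a JB*-algebra is jointly J-strict continuous on bounded sets

Idea.  The linearised Jordan identity gives
`b² (x y) = x (b² y) - 2 (b x) (b y) + 2 b ((b x) y)`.  If `x_λ → x` and `y_μ → y` are bounded and
J-strict convergent, then `b x_λ`, `b y_μ`, `b² y_μ` converge in norm to elements of `A`, and so
does every term on the right.  Every element of `A` is a linear combination of squares.
-/

set_option autoImplicit false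

namespace Pool.Agent.Results.MP_2cba5e_an.JointContinuity

open Q89.JB Filter Topology

/-- The net `u` (along the filter `l`) in `B` converges J-strictly to `x`: for every `a` in `A`,
`‖a ∘ (u - x)‖ → 0`. -/
def JStrictTendsto {A B ι : Type*} [NormedAddCommGroup A] [NormedSpace ℂ A]
    [NormedAddCommGroup B] [NormedSpace ℂ B] (SB : JBStarStructure B) (i : A →ₗᵢ[ℂ] B)
    (l : Filter ι) (u : ι → B) (x : B) : Prop :=
  ∀ a : A, Tendsto (fun n => ‖SB.mul (i a) (u n - x)‖) l (𝓝 0)

/-- Reformulation of J-strict convergence. -/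
theorem conv {B ι : Type*} [NormedAddCommGroup B] [NormedSpace ℂ B] (SB : JBStarStructure B)
    (l : Filter ι) (u : ι → B) (v : B) (a : B) :
    Tendsto (fun n => ‖SB.mul a (u n - v)‖) l (𝓝 0) ↔
      Tendsto (fun n => SB.mul a (u n)) l (𝓝 (SB.mul a v)) := by
  rw [tendsto_iff_norm_sub_tendsto_zero (b := SB.mul a v)]
  simp only [SB.mul_sub]

/-- **Theorem.** Let `A` be a JB*-algebra which is a closed Jordan *-subalgebra of a JB*-algebra `B`
(for example `B = A**`), and let `M(A)` be the set of all `x` in `B` with `x ∘ A ⊆ A`.  Then `M(A)`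
is closed under the Jordan product, and the Jordan product is jointly J-strict continuous on
bounded sets: if `x_j → x` and `y_k → y` J-strictly, where `(x_j)` and `(y_k)` are norm-bounded nets
in `M(A)` and `x`, `y` are in `M(A)`, then the net `(x_j ∘ y_k)_{(j,k)}` converges J-strictly to
`x ∘ y`. -/
theorem result {A B : Type*} [NormedAddCommGroup A] [NormedSpace ℂ A] [CompleteSpace A]
    [NormedAddCommGroup B] [NormedSpace ℂ B] [CompleteSpace B] (SA : JBStarStructure A)
    (SB : JBStarStructure B) (i : A →ₗᵢ[ℂ] B) (hi : IsEmbedding SA SB i) :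
    (∀ x ∈ multipliers SB i, ∀ y ∈ multipliers SB i, SB.mul x y ∈ multipliers SB i) ∧
    ∀ {J K : Type*} (l : Filter J) (m : Filter K) (x : J → B) (y : K → B) (x₀ y₀ : B) (c : ℝ),
      (∀ j, x j ∈ multipliers SB i ∧ ‖x j‖ ≤ c) → (∀ k, y k ∈ multipliers SB i ∧ ‖y k‖ ≤ c) →
      x₀ ∈ multipliers SB i → y₀ ∈ multipliers SB i →
      JStrictTendsto SB i l x x₀ → JStrictTendsto SB i m y y₀ →
      JStrictTendsto SB i (l ×ˢ m) (fun p => SB.mul (x p.1) (y p.2)) (SB.mul x₀ y₀) := by
  refine ⟨fun x hx y hy => mul_mem_multipliers hi hx hy, ?_⟩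
  intro J K l m x y x₀ y₀ c hx hy hx₀ hy₀ hxt hyt
  have hxa : ∀ a : A, Tendsto (fun p : J × K => SB.mul (i a) (x p.1)) (l ×ˢ m)
      (𝓝 (SB.mul (i a) x₀)) := fun a =>
    ((conv SB l x x₀ (i a)).1 (hxt a)).comp tendsto_fst
  have hya : ∀ a : A, Tendsto (fun p : J × K => SB.mul (i a) (y p.2)) (l ×ˢ m)
      (𝓝 (SB.mul (i a) y₀)) := fun a =>
    ((conv SB m y y₀ (i a)).1 (hyt a)).comp tendsto_snd
  -- bounded times convergent
  have bdd : ∀ (u v : J × K → B) (u₀ v₀ : B), (∀ p, ‖u p‖ ≤ c) →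
      Tendsto v (l ×ˢ m) (𝓝 v₀) → Tendsto (fun p => SB.mul (u p) v₀) (l ×ˢ m) (𝓝 (SB.mul u₀ v₀)) →
      Tendsto (fun p => SB.mul (u p) (v p)) (l ×ˢ m) (𝓝 (SB.mul u₀ v₀)) := by
    intro u v u₀ v₀ hu hv huv
    have h1 : Tendsto (fun p => SB.mul (u p) (v p - v₀)) (l ×ˢ m) (𝓝 0) := by
      rw [tendsto_zero_iff_norm_tendsto_zero]
      have h2 : Tendsto (fun p => c * ‖v p - v₀‖) (l ×ˢ m) (𝓝 0) := by
        have := (tendsto_iff_norm_sub_tendsto_zero.1 hv).const_mul c
        rwa [mul_zero] at this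
      refine squeeze_zero (fun p => norm_nonneg _) (fun p => ?_) h2
      exact (SB.norm_mul_le _ _).trans (by gcongr; exact hu p)
    have h3 := h1.add huv
    rw [zero_add] at h3
    refine h3.congr fun p => ?_
    rw [SB.mul_sub]
    abel
  intro a
  rw [conv]
  refine induction_squares (SA := SA) (fun a => Tendsto
    (fun p : J × K => SB.mul (i a) (SB.mul (x p.1) (y p.2))) (l ×ˢ m)
      (𝓝 (SB.mul (i a) (SB.mul x₀ y₀)))) ?_ ?_ ?_ ?_ a
  · simp only [map_zero, SB.zero_mul]
    exact tendsto_const_nhds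
  · intro a b ha hb
    simp only [map_add, SB.add_mul]
    exact ha.add hb
  · intro z a ha
    simp only [map_smul, SB.smul_mul]
    exact ha.const_smul z
  · intro b
    simp only [hi.map_mul, SB.sq_mul_mul]
    obtain ⟨y', hy'⟩ := hy₀ (SA.mul b b)
    obtain ⟨x', hx'⟩ := hx₀ b
    have h1 : Tendsto (fun p : J × K => SB.mul (x p.1) (SB.mul (SB.mul (i b) (i b)) (y p.2)))
        (l ×ˢ m) (𝓝 (SB.mul x₀ (SB.mul (SB.mul (i b) (i b)) y₀))) := by
      refine bdd _ _ _ _ (fun p => (hx p.1).2) ?_ ?_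
      · have := hya (SA.mul b b)
        simpa only [hi.map_mul] using this
      · have := hxa y'
        rw [hy', hi.map_mul] at this
        simpa only [SB.mul_comm _ (SB.mul (SB.mul (i b) (i b)) y₀),
          SB.mul_comm y₀ (SB.mul (i b) (i b))] using this
    have h2 : Tendsto (fun p : J × K => SB.mul (SB.mul (i b) (x p.1)) (SB.mul (i b) (y p.2)))
        (l ×ˢ m) (𝓝 (SB.mul (SB.mul (i b) x₀) (SB.mul (i b) y₀))) := by
      have h3 := (hxa b).prodMk_nhds (hya b)
      exact (SB.continuous_mul₂.tendsto _).comp h3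
    have h4 : Tendsto (fun p : J × K => SB.mul (SB.mul (i b) (x p.1)) (y p.2))
        (l ×ˢ m) (𝓝 (SB.mul (SB.mul (i b) x₀) y₀)) := by
      have h5 : Tendsto (fun p : J × K => SB.mul (y p.2) (SB.mul (i b) (x p.1)))
          (l ×ˢ m) (𝓝 (SB.mul y₀ (SB.mul (i b) x₀))) := by
        refine bdd _ _ _ _ (fun p => (hy p.2).2) (hxa b) ?_
        have := hya x'
        rw [hx', SB.mul_comm x₀ (i b)] at this
        simpa only [SB.mul_comm _ (SB.mul (i b) x₀)] using this
      simpa only [SB.mul_comm y₀, SB.mul_comm (y _)] using h5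
    have h6 : Tendsto (fun p : J × K => SB.mul (i b) (SB.mul (SB.mul (i b) (x p.1)) (y p.2)))
        (l ×ˢ m) (𝓝 (SB.mul (i b) (SB.mul (SB.mul (i b) x₀) y₀))) :=
      ((SB.cont_l (i b)).tendsto _).comp h4
    exact (h1.sub (h2.const_smul _)).add (h6.const_smul _)

end Pool.Agent.Results.MP_2cba5e_an.JointContinuity
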